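import Mathlib
import Pool.Agent.H523R3.TransMain

set_option autoImplicit false

/-!
# MP_f8b1fe_co, Q1: the transversal ratios of polytopes and spheres agree for `d ≥ 4`

The definitions of `tauP`, `tauS` and of all notions they use are in `Pool.Agent.H523R3.TransDefs`.
-/

namespace Pool.Agent.Results.MP_f8b1fe_co.Equality

open Pool.Agent.H523R3.Trans

/-- For every `d ≥ 4` the asymptotic transversal ratio of simplicial `d`-polytopes equals the
asymptotic transversal ratio of simplicial `(d-1)`-spheres, and both are equal to `1`. -/
theorem result : ∀ d : ℕ, 4 ≤ d → tauP d = tauS d ∧ tauP d = 1 := fun _ hd =>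
  ⟨(tauP_eq_one hd).trans (tauS_eq_one hd).symm, tauP_eq_one hd⟩

end Pool.Agent.Results.MP_f8b1fe_co.Equality
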